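import Pool.Agent.RIG.K4

open Filter Topology Pool.Agent.MP_d19687_ag Pool.Agent.RIG

namespace Pool.Agent.Results.MP_d19687_ag.RigidClassification

/-- Let `Z` be (the punctured affine cone of) an irreducible nonsingular projective variety in
`ℙ(V)` whose linear span has (affine) dimension at least `2` and which is rigid: every linear
endomorphism of `V` tangent to `Z` acts on the span as a scalar.  Then `Z` is the fibre, at a point
`x` with `𝔣² ≠ 0`, of a cone structure as in the problem if and only if `Z` is degenerate in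
`ℙ(V)` and not linearly normal. -/
theorem result {V : Type} [NormedAddCommGroup V] [NormedSpace ℂ V] [FiniteDimensional ℂ V]
    (Z : Set V) (hZ : IsSmoothCone Z) (hdim : 2 ≤ Module.finrank ℂ (Submodule.span ℂ Z))
    (hrig : ∀ A : V →ₗ[ℂ] V, (∀ z ∈ Z, IsTangent Z z (A z)) →
      ∃ c : ℂ, ∀ w ∈ Submodule.span ℂ Z, A w = c • w) :
    OccursAt Z ↔ Submodule.span ℂ Z ≠ ⊤ ∧ ¬ LinearlyNormal Z :=
  occursAt_iff Z hZ hdim hrig

end Pool.Agent.Results.MP_d19687_ag.RigidClassification
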