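import Pool.Agent.SEC.F1

open Pool.Agent.MP_d19687_ag Pool.Agent.RIG Pool.Agent.SEC

namespace Pool.Agent.Results.MP_d19687_ag.SecantClassification

/-- Let `Z` be (the punctured affine cone of) an irreducible nonsingular projective variety in
`ℙ(V)`, with linear span `ℙ(W)` and secant variety `Sec(Z)` (`SecSet Z` is the affine cone over it).
1. If `W = V` then `Z` occurs as a fibre of a cone structure as in the problem if and only if
`Z = ℙ(V)` or `Sec(Z) ≠ ℙ(V)`.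
2. If `W ≠ V` and `Z = ℙ(W)` then `Z` occurs if and only if `dim W ≥ 2`.
3. If `W ≠ V` and `Sec(Z) ≠ ℙ(W)` or `Z` is not linearly normal in `ℙ(W)`, then `Z` occurs. -/
theorem result {V : Type} [NormedAddCommGroup V] [NormedSpace ℂ V] [FiniteDimensional ℂ V]
    (Z : Set V) (hZ : IsSmoothCone Z) :
    (Submodule.span ℂ Z = ⊤ → (Occurs Z ↔ Z = {v | v ≠ 0} ∨ ∃ p, p ∉ SecSet Z)) ∧
    (Submodule.span ℂ Z ≠ ⊤ → Z = {v | v ∈ Submodule.span ℂ Z ∧ v ≠ 0} →
      (Occurs Z ↔ 2 ≤ Module.finrank ℂ (Submodule.span ℂ Z))) ∧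
    (Submodule.span ℂ Z ≠ ⊤ → ((∃ p ∈ Submodule.span ℂ Z, p ∉ SecSet Z) ∨ ¬ LinearlyNormal Z) →
      Occurs Z) :=
  ⟨(classification Z hZ).1, (classification Z hZ).2.2, (classification Z hZ).2.1⟩

end Pool.Agent.Results.MP_d19687_ag.SecantClassification
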