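import Pool.Agent.SEC.R3c

open Filter Topology Pool.Agent.MP_d19687_ag Pool.Agent.RIG Pool.Agent.SEC

namespace Pool.Agent.Results.MP_d19687_ag.SecantStructure

/-- Let `C` be a cone structure as in the problem (irreducible nonsingular fibres, bracket-generating
distribution `D`) and suppose that the fibre at one point `y` is linearly normal in `ℙ(D_y)` with
secant variety `ℙ(D_y)`.  Then `D` has constant rank on all of `U` (`U_o = U`), the secant variety
of every fibre `C_x` is `ℙ(D_x)`, and at every `x` for which the linear endomorphisms tangent to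
`C_x` act on `D_x` as scalars (and `dim D_x ≥ 2`) a germ of a symmetry `σ` with `σ(x) = 0` and
`dσ_x = 0` on `D_x` is zero; in particular `𝔣² = 0` at such `x`. -/
theorem result {T : Type*} [NormedAddCommGroup T] [NormedSpace ℂ T] [FiniteDimensional ℂ T]
    (U : Set T) (C : Set (T × T)) (hC : IsConeStructure U C) (hbr : IsBracketGenerating U C)
    (y : T) (hy : y ∈ U) (hLN : LinearlyNormal {v : T | (y, v) ∈ C})
    (hsec : ∀ w ∈ fibreSpan C y, w ∈ SecSet {v : T | (y, v) ∈ C}) :
    regularLocus U C = U ∧ ∀ x ∈ U,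
      Module.finrank ℂ (fibreSpan C x) = Module.finrank ℂ (fibreSpan C y) ∧
      (∀ w ∈ fibreSpan C x, w ∈ SecSet {v : T | (x, v) ∈ C}) ∧
      (2 ≤ Module.finrank ℂ (fibreSpan C y) →
        (∀ A : T →ₗ[ℂ] T, (∀ v : T, (x, v) ∈ C → IsTangent {w : T | (x, w) ∈ C} v (A v)) →
          ∃ c : ℂ, ∀ v ∈ fibreSpan C x, A v = c • v) →
        ∀ σ : T → T, Preserves C x σ → σ x = 0 →
          (∀ v ∈ fibreSpan C x, fderiv ℂ σ x v = 0) → ∀ᶠ y' in 𝓝 x, σ y' = 0) := by
  have h1 := structure_linearlyNormal hC hy hLN hsec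
  have hr : ∀ x ∈ U, Module.finrank ℂ (fibreSpan C x) = Module.finrank ℂ (fibreSpan C y) := by
    intro x hx
    have hf : ContinuousOn (fun u => Module.finrank ℂ (fibreSpan C u)) U := by
      intro u hu
      have h2 : u ∈ regularLocus U C := by
        rw [h1.1]
        exact hu
      have h3 : (fun u' => Module.finrank ℂ (fibreSpan C u')) =ᶠ[𝓝 u]
          fun _ => Module.finrank ℂ (fibreSpan C u) := h2.2
      exact (continuousAt_const.congr h3.symm).continuousWithinAt
    exact hC.isConnected.isPreconnected.constant hf hx hy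
  refine ⟨h1.1, fun x hx => ⟨hr x hx, h1.2 x hx, fun h2 hrig σ hσ h0 hd => ?_⟩⟩
  have hxr : x ∈ regularLocus U C := by
    rw [h1.1]
    exact hx
  exact rigid_symmetry1 hC hbr hxr (by rw [hr x hx]; exact h2) hrig hσ h0 hd

end Pool.Agent.Results.MP_d19687_ag.SecantStructure
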