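import Pool.Agent.MP_d19687_ag.SquareFinal

open Pool.Agent.MP_d19687_ag

namespace Pool.Agent.Results.MP_d19687_ag.SquareZero

/-- Let `Z` be (the punctured affine cone of) an irreducible nonsingular projective variety in
`ℙ(V)` with linear span `W`, `dim V ≥ dim W + 4`, and let `N` be a linear endomorphism of `V`
which is an infinitesimal automorphism of the cone (`N z` is tangent to `Z` at `z` for every
`z ∈ Z`) such that `N ^ 2 = 0` on `W` and `N(W)` has dimension two.  Then `Z` occurs everywhere:
it is the fibre at every point of a cone structure as in the problem, for which `U_o = U` and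
`𝔣²` is nonzero at every point. -/
theorem result {V : Type} [NormedAddCommGroup V] [NormedSpace ℂ V] [FiniteDimensional ℂ V]
    (Z : Set V) (hZ : IsSmoothCone Z) (N : V →ₗ[ℂ] V)
    (hN : ∀ z ∈ Z, IsTangent Z z (N z)) (hN2 : ∀ z ∈ Z, N (N z) = 0)
    (hrk : Module.finrank ℂ ((Submodule.span ℂ Z).map N) = 2)
    (hdim : Module.finrank ℂ (Submodule.span ℂ Z) + 4 ≤ Module.finrank ℂ V) :
    OccursEverywhere Z :=
  occursEverywhere_of_square_zero Z hZ N hN hN2 hrk hdim

end Pool.Agent.Results.MP_d19687_ag.SquareZero
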